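import Mathlib
import Pool.Agent.P.MP_e06b60_al.All

open Pool.Agent.P.MP_e06b60_al

theorem Pool.Agent.Results.MP_e06b60_al.Classification.result :
    ∀ p : ℕ, p.Prime →
      ((∀ (G : Type) [Group G] [TopologicalSpace G] [IsTopologicalGroup G],
        CompactSpace G → T2Space G → TotallyDisconnectedSpace G →
        (∀ N : OpenNormalSubgroup G, IsPGroup p (G ⧸ N.toSubgroup)) → Infinite G →
        Nonempty ((G ⧸ gamma G (2 * p)) ≃ₜ* (Nott p ⧸ gamma (Nott p) (2 * p))) →
        Nonempty (G ≃ₜ* Nott p)) ↔ 7 ≤ p) :=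
  Pool.Agent.P.MP_e06b60_al.classification
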