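import Mathlib
import Pool.Agent.P.MP_e06b60_al.SL7

open Pool.Agent.P.MP_e06b60_al

theorem Pool.Agent.Results.MP_e06b60_al.SharpLevel.result :
    ∀ p : ℕ, p.Prime → 7 ≤ p → ∀ m : ℕ,
      ((∀ (G : Type) [Group G] [TopologicalSpace G] [IsTopologicalGroup G],
        CompactSpace G → T2Space G → TotallyDisconnectedSpace G →
        (∀ N : OpenNormalSubgroup G, IsPGroup p (G ⧸ N.toSubgroup)) → Infinite G →
        Nonempty ((G ⧸ gamma G m) ≃ₜ* (Nott p ⧸ gamma (Nott p) m)) →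
        Nonempty (G ≃ₜ* Nott p)) ↔ (if p = 7 then 12 else p - 1) ≤ m + 1) :=
  fun p hp h7 m => R.sharp_level p hp h7 (m + 1) (Nat.le_add_left 1 m)
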